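import Pool.Agent.Helper87.Irr.GoalsA

/-! Packet 590 (A5): the last run. -/

namespace Irr87

open Irr37

/-- the end of the last run -/
theorem endgame (p s z m c a : ℕ) (V V' : Finset ℕ) (hV : V ⊆ V') (hIn : In p V z)
    (ha : 2 * p < a) (hta : 3 * p ≤ a + z + m + s) (hc : c ≤ p)
    (hF : ((Finset.range c).filter (fun D => 2 * p - D ∉ V')).card + (m + s - c) ≤ s)
    (hcard : V'.card + s + 1 ≤ p) :
    ∃ h, h + c < p ∧ 2 * p - (c + h) ∉ V' ∧ a - h ∉ V' := by
  classical
  by_contra hcon
  push Not at hcon
  -- the three parts of `V'`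
  set L := V'.filter (fun w => w ≤ 2 * p) with hL
  set Mid := V'.filter (fun w => 2 * p < w ∧ w ≤ a) with hMid
  set Hi := V'.filter (fun w => a < w) with hHi
  have hsum : L.card + Mid.card + Hi.card ≤ V'.card := by
    rw [← Finset.card_union_of_disjoint, ← Finset.card_union_of_disjoint]
    · refine Finset.card_le_card ?_
      intro w hw
      simp only [hL, hMid, hHi, Finset.mem_union, Finset.mem_filter] at hw
      tauto
    · rw [Finset.disjoint_left]
      intro w hw hw'
      simp only [hL, hMid, hHi, Finset.mem_union, Finset.mem_filter] at hw hw'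
      omega
    · rw [Finset.disjoint_left]
      intro w hw hw'
      simp only [hL, hMid, Finset.mem_filter] at hw hw'
      omega
  -- the high part
  have hHic : min (3 * p - a) z ≤ Hi.card := by
    rcases Nat.lt_or_ge (3 * p) a with h3 | h3
    · have h4 : 3 * p - a = 0 := by omega
      rw [h4]
      exact (Nat.min_le_left 0 z).trans (Nat.zero_le _)
    · refine (hIn (min (3 * p - a) z) (min_le_right _ _)).trans ?_
      refine Finset.card_le_card ?_
      intro w hw
      simp only [hHi, Finset.mem_filter] at hw ⊢
      refine ⟨hV hw.1, ?_⟩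
      have h1 := hw.2
      have h2 : min (3 * p - a) z ≤ 3 * p - a := min_le_left _ _
      omega
  -- the positions
  set H := Finset.range (p - c) with hH
  set H1 := H.filter (fun h => 2 * p - (c + h) ∈ V') with hH1
  set H2 := H.filter (fun h => 2 * p - (c + h) ∉ V') with hH2
  have hH12 : H1.card + H2.card = p - c := by
    rw [hH1, hH2, Finset.card_filter_add_card_filter_not, hH, Finset.card_range]
  set H2a := H2.filter (fun h => 2 * p < a - h) with hH2a
  set H2b := H2.filter (fun h => ¬ 2 * p < a - h) with hH2b
  have hH2ab : H2a.card + H2b.card = H2.card := by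
    rw [hH2a, hH2b, Finset.card_filter_add_card_filter_not]
  have hH2bc : H2b.card ≤ 3 * p - c - a := by
    have hsub : H2b ⊆ (Finset.range (p - c)) \ (Finset.range (a - 2 * p)) := by
      intro h hh
      simp only [hH2b, hH2, hH, Finset.mem_filter, Finset.mem_range, Finset.mem_sdiff] at hh ⊢
      omega
    refine (Finset.card_le_card hsub).trans ?_
    have := Finset.card_sdiff_add_card (Finset.range (p - c)) (Finset.range (a - 2 * p))
    have h2 : (Finset.range (p - c) ∪ Finset.range (a - 2 * p)) =
        Finset.range (max (p - c) (a - 2 * p)) := by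
      ext x
      simp only [Finset.mem_union, Finset.mem_range, lt_max_iff]
    rw [h2, Finset.card_range, Finset.card_range] at this
    omega
  have hMidc : H2a.card ≤ Mid.card := by
    refine Finset.card_le_card_of_injOn (fun h => a - h) ?_ ?_
    · intro h hh
      simp only [hH2a, hH2, hH, hMid, Finset.coe_filter, Finset.mem_filter, Finset.mem_range,
        Set.mem_ofPred_eq] at hh ⊢
      have := hcon h (by omega) hh.1.2
      exact ⟨this, hh.2, by omega⟩
    · intro h hh h' hh' heq
      simp only [hH2a, hH2, hH, Finset.coe_filter, Finset.mem_filter, Finset.mem_range,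
        Set.mem_ofPred_eq] at hh hh' heq
      omega
  -- the low part
  set U := (Finset.range c).filter (fun D => 2 * p - D ∈ V') with hU
  set F := (Finset.range c).filter (fun D => 2 * p - D ∉ V') with hFd
  have hUF : U.card + F.card = c := by
    rw [hU, hFd, Finset.card_filter_add_card_filter_not, Finset.card_range]
  have hLc : U.card + H1.card ≤ L.card := by
    have hdis : Disjoint U (H1.image (fun h => c + h)) := by
      rw [Finset.disjoint_left]
      intro D hD hD'
      simp only [hU, Finset.mem_filter, Finset.mem_range] at hD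
      rw [Finset.mem_image] at hD'
      obtain ⟨h, _, rfl⟩ := hD'
      omega
    have him : (H1.image (fun h => c + h)).card = H1.card :=
      Finset.card_image_of_injective _ (fun x y hxy => by simpa using hxy)
    rw [← him, ← Finset.card_union_of_disjoint hdis]
    refine Finset.card_le_card_of_injOn (fun D => 2 * p - D) ?_ ?_
    · intro D hD
      simp only [Finset.coe_union, Set.mem_union, Finset.mem_coe, Finset.mem_image] at hD
      simp only [hL, Finset.coe_filter, Set.mem_ofPred_eq]
      rcases hD with hD | ⟨h, hh, rfl⟩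
      · simp only [hU, Finset.mem_filter, Finset.mem_range] at hD
        exact ⟨hD.2, by omega⟩
      · simp only [hH1, hH, Finset.mem_filter, Finset.mem_range] at hh
        exact ⟨hh.2, by omega⟩
    · intro D hD D' hD' heq
      have hlt : ∀ D ∈ U ∪ H1.image (fun h => c + h), D < p := by
        intro D hD
        rw [Finset.mem_union, Finset.mem_image] at hD
        rcases hD with hD | ⟨h, hh, rfl⟩
        · simp only [hU, Finset.mem_filter, Finset.mem_range] at hD; omega
        · simp only [hH1, hH, Finset.mem_filter, Finset.mem_range] at hh; omega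
      have h1 := hlt D (by exact_mod_cast hD)
      have h2 := hlt D' (by exact_mod_cast hD')
      simp only at heq
      omega
  rcases Nat.le_total (3 * p - a) z with h | h
  · rw [Nat.min_eq_left h] at hHic
    omega
  · rw [Nat.min_eq_right h] at hHic
    omega

/-- the first `k` elements of a finite set -/
theorem firstk (k : ℕ) : ∀ G : Finset ℕ, k ≤ G.card →
    ∃ l : List ℕ, l.length = k ∧ l.Pairwise (· < ·) ∧ (∀ x ∈ l, x ∈ G) ∧
      (∀ y ∈ l, ∀ x ∈ G, x ≤ y → x ∈ l) := by
  induction k with
  | zero => intro G _; exact ⟨[], rfl, List.Pairwise.nil, by simp, by simp⟩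
  | succ k ih =>
    intro G hG
    have hne : G.Nonempty := Finset.card_pos.1 (by omega)
    obtain ⟨l, h1, h2, h3, h4⟩ := ih (G.erase (G.min' hne)) (by
      rw [Finset.card_erase_of_mem (G.min'_mem hne)]; omega)
    have hlt : ∀ x ∈ G.erase (G.min' hne), G.min' hne < x := by
      intro x hx
      rw [Finset.mem_erase] at hx
      exact lt_of_le_of_ne (G.min'_le x hx.2) (Ne.symm hx.1)
    refine ⟨G.min' hne :: l, by simp [h1], ?_, ?_, ?_⟩
    · rw [List.pairwise_cons]
      exact ⟨fun x hx => hlt x (h3 x hx), h2⟩
    · intro x hx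
      rcases List.mem_cons.1 hx with rfl | hx
      · exact G.min'_mem hne
      · exact Finset.mem_of_mem_erase (h3 x hx)
    · intro y hy x hx hxy
      by_cases hxm : x = G.min' hne
      · rw [hxm]; exact List.mem_cons_self
      · refine List.mem_cons_of_mem _ ?_
        have hx' : x ∈ G.erase (G.min' hne) := Finset.mem_erase.2 ⟨hxm, hx⟩
        rcases List.mem_cons.1 hy with rfl | hy
        · exact absurd (hlt x hx') (by omega)
        · exact h4 y hy x hx' hxy

/-- a chain through an increasing list of even length -/
theorem chain_even (p : ℕ) : ∀ (n : ℕ) (l : List ℕ) (c : ℕ), l.length = 2 * n →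
    l.Pairwise (· < ·) → (∀ D ∈ l, D < p) → (∀ D ∈ l, c ≤ D) →
    ∃ b, Chain p c l b ∧ c ≤ b ∧ ((l = [] ∧ b = c) ∨ ∃ y ∈ l, b ≤ y) := by
  intro n
  induction n with
  | zero =>
    intro l c hl _ _ _
    have : l = [] := List.length_eq_zero_iff.1 (by omega)
    subst this
    exact ⟨c, rfl, le_rfl, Or.inl ⟨rfl, rfl⟩⟩
  | succ n ih =>
    intro l c hl hpw hlt hle
    match l, hl, hpw, hlt, hle with
    | x :: y :: l', hl, hpw, hlt, hle =>
      rw [List.pairwise_cons] at hpw
      obtain ⟨hx, hpw⟩ := hpw
      rw [List.pairwise_cons] at hpw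
      obtain ⟨hy, hpw⟩ := hpw
      have hcx := hle x (by simp)
      have hxy := hx y (by simp)
      have hxp := hlt x (by simp)
      have hyp := hlt y (by simp)
      obtain ⟨b, hb1, hb2, hb3⟩ := ih l' (y - (x - c)) (by simp at hl; omega) hpw
        (fun D hD => hlt D (by simp [hD])) (fun D hD => by have := hy D hD; omega)
      refine ⟨b, ⟨hcx, hxp, by omega, hyp, hb1⟩, by omega, Or.inr ?_⟩
      rcases hb3 with ⟨_, hb3⟩ | ⟨y', hy', hb3⟩
      · exact ⟨y, by simp, by omega⟩
      · exact ⟨y', by simp [hy'], hb3⟩
    | [x], hl, _, _, _ => simp at hl; omega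
    | [], hl, _, _, _ => simp at hl

/-- the common end of both cases -/
theorem finish (p s z m c n S a : ℕ) (V : Finset ℕ) (l : List ℕ) (hIn : In p V z)
    (ha : 2 * p < a) (hta : 3 * p ≤ a + z + m + s) (hlen : l.length + 1 = n)
    (hnd : l.Nodup) (hfree : ∀ D ∈ l, 2 * p - D ∉ V) (hlp : ∀ D ∈ l, D < p)
    (hch : ∃ D l', l = D :: l' ∧ p ≤ S + D ∧ S + D < 2 * p ∧ Chain p (S + D - p) l' c)
    (hF : ((Finset.range c).filter (fun D => 2 * p - D ∉ V ∧ D ∉ l)).card + (m + s - c) ≤ s)
    (hcard : V.card + n + s ≤ p) :
    ∃ (Ds : List ℕ) (h w : ℕ), Ds.length = n ∧ ChS p S Ds h ∧ h < p ∧ Ds.Nodup ∧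
    (∀ D ∈ Ds, 2 * p - D ∉ V ∧ 2 * p - D ≠ w) ∧ w + h = a ∧ p < w ∧ w ∉ V := by
  classical
  obtain ⟨D₀, l', hl, hD1, hD2, hchain⟩ := hch
  have hcp : c < p := hchain.end_lt (by omega)
  set V' := V ∪ l.toFinset.image (fun D => 2 * p - D) with hV'
  have hV'c : V'.card + s + 1 ≤ p := by
    have h1 : V'.card ≤ V.card + (l.toFinset.image (fun D => 2 * p - D)).card :=
      Finset.card_union_le V (l.toFinset.image (fun D => 2 * p - D))
    have h2 : (l.toFinset.image (fun D => 2 * p - D)).card ≤ l.length :=
      Finset.card_image_le.trans (List.toFinset_card_le l)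
    omega
  have hmem : ∀ D < p, 2 * p - D ∈ V' ↔ (2 * p - D ∈ V ∨ D ∈ l) := by
    intro D hD
    rw [hV', Finset.mem_union, Finset.mem_image]
    refine or_congr Iff.rfl ?_
    constructor
    · rintro ⟨D', hD', h⟩
      rw [List.mem_toFinset] at hD'
      have := hlp D' hD'
      have : D' = D := by omega
      rwa [← this]
    · intro h
      exact ⟨D, List.mem_toFinset.2 h, rfl⟩
  obtain ⟨h, hh1, hh2, hh3⟩ := endgame p s z m c a V V' Finset.subset_union_left hIn ha hta
    hcp.le (by
      have : (Finset.range c).filter (fun D => 2 * p - D ∉ V') =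
          (Finset.range c).filter (fun D => 2 * p - D ∉ V ∧ D ∉ l) := by
        refine Finset.filter_congr fun D hD => ?_
        rw [Finset.mem_range] at hD
        rw [hmem D (by omega)]
        tauto
      rw [this]; exact hF) hV'c
  have hh2' : ¬ (2 * p - (c + h) ∈ V ∨ c + h ∈ l) :=
    fun hcon => hh2 ((hmem (c + h) (by omega)).2 hcon)
  rw [not_or] at hh2'
  have haV : a - h ∉ V := fun hcon => hh3 (Finset.mem_union_left _ hcon)
  have hal : ∀ D ∈ l, 2 * p - D ≠ a - h := by
    intro D hD heq
    apply hh3
    rw [← heq, hmem D (hlp D hD)]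
    exact Or.inr hD
  refine ⟨l ++ [c + h], h, a - h, by simp [hlen], ?_, by omega, ?_, ?_, by omega, by omega, haV⟩
  · refine ⟨D₀, l' ++ [c + h], by rw [hl]; rfl, hD1, hD2, hlp D₀ (by rw [hl]; simp), ?_⟩
    refine hchain.append ?_
    exact ⟨by omega, by omega, by simp [Chain]⟩
  · rw [List.nodup_append]
    refine ⟨hnd, by simp, ?_⟩
    intro D hD D' hD'
    rw [List.mem_singleton] at hD'
    rw [hD']
    rintro rfl
    exact hh2'.2 hD
  · intro D hD
    rw [List.mem_append, List.mem_singleton] at hD
    rcases hD with hD | rfl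
    · exact ⟨hfree D hD, hal D hD⟩
    · exact ⟨hh2'.1, by omega⟩

/-- A5 -/
theorem final : Irr87.Final := by
  classical
  intro p s z Ψ μ n S a V hev hn hS1 hS2 hΨ hμp hused hIn ha hcard
  obtain ⟨k, hk⟩ := hev
  -- few used weights
  set Us := (Finset.range p).filter (fun D => 2 * p - D ∈ V) with hUs
  set FR := (Finset.range p).filter (fun D => 2 * p - D ∉ V) with hFR
  have hUFR : Us.card + FR.card = p := by
    rw [hUs, hFR, Finset.card_filter_add_card_filter_not, Finset.card_range]
  have hUsV : Us.card ≤ V.card := by
    refine Finset.card_le_card_of_injOn (fun D => 2 * p - D) ?_ ?_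
    · intro D hD
      simp only [hUs, Finset.coe_filter, Finset.mem_range, Set.mem_ofPred_eq] at hD
      exact hD.2
    · intro D hD D' hD' h
      simp only [hUs, Finset.coe_filter, Finset.mem_range, Set.mem_ofPred_eq] at hD hD' h
      omega
  have hFRne : FR.Nonempty := Finset.card_pos.1 (by omega)
  obtain ⟨m, hmFR, hmin⟩ : ∃ m ∈ FR, ∀ D ∈ FR, m ≤ D :=
    ⟨FR.min' hFRne, FR.min'_mem hFRne, fun D hD => FR.min'_le D hD⟩
  have hmp : m < p := by
    have := hmFR
    rw [hFR, Finset.mem_filter, Finset.mem_range] at this
    exact this.1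
  have hmfree : 2 * p - m ∉ V := by
    have := hmFR
    rw [hFR, Finset.mem_filter] at this
    exact this.2
  have hμm : μ ≤ m := by
    by_contra hcon
    exact hmfree (hused m (by omega))
  have hmused : ∀ D < m, 2 * p - D ∈ V := by
    intro D hD
    by_contra hcon
    have : D ∈ FR := by
      rw [hFR, Finset.mem_filter, Finset.mem_range]; exact ⟨by omega, hcon⟩
    have := hmin D this
    omega
  -- `z + m ≤ |V|`
  have hzV : z + m ≤ V.card := by
    have h1 := hIn z le_rfl
    have hzp : z ≤ p := by
      have h2 := h1.trans (Finset.card_filter_le V _)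
      omega
    have h2 : (Finset.range m).card ≤ (V.filter (fun w => ¬ 3 * p < w + z)).card := by
      refine Finset.card_le_card_of_injOn (fun D => 2 * p - D) ?_ ?_
      · intro D hD
        simp only [Finset.coe_range, Set.mem_Iio] at hD
        simp only [Finset.coe_filter, Set.mem_ofPred_eq]
        exact ⟨hmused D hD, by omega⟩
      · intro D hD D' hD' h
        simp only [Finset.coe_range, Set.mem_Iio] at hD hD' h
        omega
    have h3 := Finset.card_filter_add_card_filter_not (s := V) (fun w => 3 * p < w + z)
    rw [Finset.card_range] at h2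
    omega
  have ha2 : 2 * p + n ≤ a := by omega
  rcases Nat.lt_or_ge p S with hSp | hSp
  · -- `S > p`
    set G := FR.filter (fun D => m + (S - p) ≤ D) with hG
    have hGc : n ≤ G.card + 0 := by
      have h1 := Finset.card_filter_add_card_filter_not (s := FR) (fun D => m + (S - p) ≤ D)
      have h2 : (FR.filter (fun D => ¬ m + (S - p) ≤ D)).card ≤ S - p := by
        have hsub : FR.filter (fun D => ¬ m + (S - p) ≤ D) ⊆
            (Finset.range (S - p)).image (fun i => m + i) := by
          intro D hD
          rw [Finset.mem_filter] at hD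
          have := hmin D hD.1
          rw [Finset.mem_image]
          exact ⟨D - m, by rw [Finset.mem_range]; omega, by omega⟩
        refine (Finset.card_le_card hsub).trans (Finset.card_image_le.trans ?_)
        rw [Finset.card_range]
      rw [← hG] at h1
      omega
    obtain ⟨l, hl1, hl2, hl3, hl4⟩ := firstk (2 * (k - 1)) G (by omega)
    have hlG : ∀ D ∈ l, D < p ∧ 2 * p - D ∉ V ∧ m + (S - p) ≤ D := by
      intro D hD
      have := hl3 D hD
      rw [hG, Finset.mem_filter, hFR, Finset.mem_filter, Finset.mem_range] at this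
      exact ⟨this.1.1, this.1.2, this.2⟩
    obtain ⟨c, hc1, hc2, hc3⟩ := chain_even p (k - 1) l (m + (S - p)) hl1 hl2
      (fun D hD => (hlG D hD).1) (fun D hD => (hlG D hD).2.2)
    have hmS : m + (S - p) < p := by omega
    have hcp : c < p := hc1.end_lt hmS
    refine finish p s z m c n S a V (m :: l) hIn (by clear hc3; omega) (by clear hc3; omega)
      (by clear hc3; simp [hl1]; omega) ?_ ?_ ?_ ?_ ?_ (by clear hc3; omega)
    · rw [List.nodup_cons]
      refine ⟨fun hmem => ?_, hl2.imp (fun h => ne_of_lt h)⟩
      have := (hlG m hmem).2.2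
      omega
    · intro D hD
      rcases List.mem_cons.1 hD with rfl | hD
      · exact hmfree
      · exact (hlG D hD).2.1
    · intro D hD
      rcases List.mem_cons.1 hD with rfl | hD
      · exact hmp
      · exact (hlG D hD).1
    · refine ⟨m, l, rfl, by clear hc3; omega, by clear hc3; omega, ?_⟩
      have : S + m - p = m + (S - p) := by clear hc3; omega
      rw [this]; exact hc1
    · have hsub : (Finset.range c).filter (fun D => 2 * p - D ∉ V ∧ D ∉ m :: l) ⊆
          (Finset.range (S - p - 1)).image (fun i => m + 1 + i) := by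
        intro D hD
        rw [Finset.mem_filter, Finset.mem_range, List.mem_cons, not_or] at hD
        obtain ⟨hDc, hDV, hDm, hDl⟩ := hD
        have hDFR : D ∈ FR := by
          rw [hFR, Finset.mem_filter, Finset.mem_range]; exact ⟨by omega, hDV⟩
        have h1 := hmin D hDFR
        have h2 : D < m + (S - p) := by
          by_contra hcon
          have hDG : D ∈ G := by
            rw [hG, Finset.mem_filter]; exact ⟨hDFR, by omega⟩
          rcases hc3 with ⟨_, hc3⟩ | ⟨y, hy, hc3⟩
          · omega
          · exact hDl (hl4 y hy D hDG (by omega))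
        rw [Finset.mem_image]
        exact ⟨D - m - 1, by rw [Finset.mem_range]; omega, by omega⟩
      have h1 := (Finset.card_le_card hsub).trans Finset.card_image_le
      rw [Finset.card_range] at h1
      omega
  · -- `S ≤ p`
    set G := FR.filter (fun D => m + s ≤ D) with hG
    have hGc : n ≤ G.card := by
      have h1 := Finset.card_filter_add_card_filter_not (s := FR) (fun D => m + s ≤ D)
      have h2 : (FR.filter (fun D => ¬ m + s ≤ D)).card ≤ s := by
        have hsub : FR.filter (fun D => ¬ m + s ≤ D) ⊆
            (Finset.range s).image (fun i => m + i) := by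
          intro D hD
          rw [Finset.mem_filter] at hD
          have := hmin D hD.1
          rw [Finset.mem_image]
          exact ⟨D - m, by rw [Finset.mem_range]; omega, by omega⟩
        refine (Finset.card_le_card hsub).trans (Finset.card_image_le.trans ?_)
        rw [Finset.card_range]
      rw [← hG] at h1
      omega
    obtain ⟨l, hl1, hl2, hl3, hl4⟩ := firstk (2 * (k - 1) + 1) G (by omega)
    have hlG : ∀ D ∈ l, D < p ∧ 2 * p - D ∉ V ∧ m + s ≤ D := by
      intro D hD
      have := hl3 D hD
      rw [hG, Finset.mem_filter, hFR, Finset.mem_filter, Finset.mem_range] at this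
      exact ⟨this.1.1, this.1.2, this.2⟩
    match l, hl1, hl2, hl3, hl4, hlG with
    | g :: l', hl1, hl2, hl3, hl4, hlG =>
      have hg := hlG g (by simp)
      have hpw := List.pairwise_cons.1 hl2
      obtain ⟨c, hc1, hc2, hc3⟩ := chain_even p (k - 1) l' (S + g - p) (by simpa using hl1)
        hpw.2 (fun D hD => (hlG D (by simp [hD])).1)
        (fun D hD => by have := hpw.1 D hD; omega)
      have hcp : c < p := hc1.end_lt (by omega)
      refine finish p s z m c n S a V (g :: l') hIn (by clear hc3; omega) (by clear hc3; omega)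
        (by clear hc3; simp at hl1 ⊢; omega) (hl2.imp (fun h => ne_of_lt h))
        (fun D hD => (hlG D hD).2.1) (fun D hD => (hlG D hD).1)
        ⟨g, l', rfl, by clear hc3; omega, by clear hc3; omega, hc1⟩ ?_ (by clear hc3; omega)
      have hsub : (Finset.range c).filter (fun D => 2 * p - D ∉ V ∧ D ∉ g :: l') ⊆
          (Finset.range (min c (m + s) - m)).image (fun i => m + i) := by
        intro D hD
        rw [Finset.mem_filter, Finset.mem_range] at hD
        obtain ⟨hDc, hDV, hDl⟩ := hD
        have hDFR : D ∈ FR := by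
          rw [hFR, Finset.mem_filter, Finset.mem_range]; exact ⟨by omega, hDV⟩
        have h1 := hmin D hDFR
        have h2 : D < m + s := by
          by_contra hcon
          have hDG : D ∈ G := by
            rw [hG, Finset.mem_filter]; exact ⟨hDFR, by omega⟩
          rcases hc3 with ⟨_, hc3⟩ | ⟨y, hy, hc3⟩
          · exact hDl (hl4 g (by simp) D hDG (by omega))
          · exact hDl (hl4 y (by simp [hy]) D hDG (by omega))
        rw [Finset.mem_image]
        exact ⟨D - m, by rw [Finset.mem_range]; omega, by omega⟩
      have h1 := (Finset.card_le_card hsub).trans Finset.card_image_le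
      rw [Finset.card_range] at h1
      have hmc : m ≤ c := by omega
      omega
    | [], hl1, _, _, _, _ => simp at hl1

end Irr87
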